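import Pool.Agent.N569.TC.Ord2

/-!
# Vassiliev invariants of one order separate twisted braids with different extreme exponents

Starting library: `Pool.Agent.H891R2.Jones.*` (link diagrams, `Diagram.IsClosed`, `Diagram.fPoly`),
`Pool.Agent.W639.RB.Defs` (`(draw (braidClosure m) W).close`: the diagram of the closed braid of the word `W`; a letter
`σ_i^{±1}` is a pair of its sign, `true` for a positive crossing, and of the number `i`, `0 ≤ i`, `i + 1 < m`, of the
first one of the two strands), `Pool.Agent.TH561.PB.State2` (`TW s n k a`: the word of `a` full twists, positive for `s =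
true`, negative for `s = false`, of the `n` strands `k, …, k + n - 1`), `Pool.Agent.H832R3.VJ.Defs` (`Dia`: an oriented
diagram with the finite set of its marked points; `Separated d X Y`: some integer valued Vassiliev invariant of oriented
links of order at most `d` has different values on `X` and `Y`).

From `Pool.Agent.N569.TC`: an item (`It`) is a letter `σ_i^{±1}` or consists of `a ≥ 1` positive full twists of the
last `n` of the `m` strands (`It.Fits`; it is `Simple` if it is a letter or one full twist, `a = 1`);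
`Lst x n = x_1^{n_1} ⋯ x_r^{n_r}` (the item `x_i` is repeated `n_i` times); `wd m L`: the braid word of a list of items;
`sgd s W`: the word `W` for `s = true`, the word with the opposite signs (the mirror image) for `s = false`;
`cl m W`: the closure of the braid word `W` with its marked points.

A path `s : Fin m → Fin 2` of steps up (`0`) and down (`1`) is read from the right: `Hh s i` is its height after the
steps `m - 1, …, i`, so `Hh s m = 0`; `Vd s`: no height is negative; `Pk i s`: there is a peak between the steps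
`i + 1` and `i`; `It.OK s x`: for a positive letter `σ_i` the path has a peak at `i`, for a negative letter
`σ_i^{-1}` it has no peak at `i`, for full twists of `n` strands its height `Hh s (m - n)` is `0` or `1`.
`pths m L`: the number of the paths `s` with `Vd s`, end height `Hh s 0 ∈ {0, 1}` and `It.OK s x` for all items `x` of
`L`; `FE m L K = 6 p - 2 q + 3 ∑ a (n² - (n mod 2)) - 2 + 2 (m mod 2)`, where `p` and `q` are the numbers of the positive
and negative letters of `L` and the sum is over all full twists (`a` full twists of `n` strands), those of `L` and the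
`K` full twists of all the `m` strands.

`aword m c g n = σ_{g_1}^{± n_1} ⋯ σ_{g_r}^{± n_r}` with the sign `+` at the gaps `g_i` of parity `c` and the sign `-` at
the other gaps; `score s W`: six times the number of the letters of `W` with the sign `s`, minus twice the number of
the other letters.
-/

set_option autoImplicit false

namespace Pool.Agent.Results.MP_31fd3b_gt.TwistedExponents

open Finset LaurentPolynomial Pool.Agent.H891R2.Jones Pool.Agent.W639.RB Pool.Agent.TH561 Pool.Agent.N569.TW
  Pool.Agent.N569.TC Pool.Agent.H832R3.VJ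

/-- For all numbers `m, m' ≥ 1` of strands and `r, r'` of syllables there is an order `d` with the following
properties.

(1) Let `L = x_1^{n_1} ⋯ x_r^{n_r}`, where every `x_i` is a letter or one full twist of some last strands and the
exponents `n_i ≥ 0` are arbitrary, and let `D` be the closure of `L` followed by `K ≥ 1` positive full twists `Δ^{2K}` of
all the strands; let `D'` be given in the same way by `m'`, `L'` (with `r'` syllables) and `K' ≥ 1`; or let `D` and `D'`
be the mirror images of such diagrams.  Assume that both words have paths with all conditions.  If the numbers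
`FE m L K` and `FE m' L' K'` are different, or the numbers of the paths are different, then `D` and `D'` are separated
by Vassiliev invariants of order at most `d`.

(2) Let `m, m' ≥ 3`, let `β` and `β'` be any alternating braids on `m` and `m'` strands with at most `r` and `r'`
syllables, with arbitrary exponents, in which all the generators occur, let `s` be a sign, `K, K' ≥ 1`.  Then the
closures of `β Δ^{2 s K}` and `β' Δ^{2 s K'}` are separated by Vassiliev invariants of order at most `d` unless
`score s β + 3 K (m² - (m mod 2)) + 2 (m mod 2) = score s β' + 3 K' (m'² - (m' mod 2)) + 2 (m' mod 2)`.  In particular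
(`β = β'`) this is so for the closures of `β Δ^{2 s K}` and `β Δ^{2 s K'}` for all `K ≠ K'`. -/
theorem result (m m' : ℕ) (hm : 1 ≤ m) (hm' : 1 ≤ m') (r r' : ℕ) : ∃ d : ℕ,
    (∀ x : Fin r → It, (∀ i, (x i).Fits m ∧ (x i).Simple) → ∀ (n : Fin r → ℕ) (K : ℕ), 1 ≤ K →
      ∀ x' : Fin r' → It, (∀ i, (x' i).Fits m' ∧ (x' i).Simple) → ∀ (n' : Fin r' → ℕ) (K' : ℕ), 1 ≤ K' →
      ∀ s : Bool, ∀ L L' : List It, L = Lst x n → L' = Lst x' n' →
      ∀ W W' : List (Bool × ℕ), W = sgd s (wd m L ++ TW true m 0 K) → W' = sgd s (wd m' L' ++ TW true m' 0 K') →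
        (draw (braidClosure m) W).close.IsClosed ∧ (draw (braidClosure m') W').close.IsClosed ∧
        (1 ≤ pths m L → 1 ≤ pths m' L' → (FE m L K ≠ FE m' L' K' ∨ pths m L ≠ pths m' L') →
          Separated d (cl m W) (cl m' W'))) ∧
    (3 ≤ m → 3 ≤ m' → ∀ (c c' : ℕ), c < 2 → c' < 2 →
      ∀ (g : Fin r → Fin (m - 1)) (n : Fin r → ℕ), (∀ j, j + 1 < m → ∃ i, (g i : ℕ) = j ∧ 1 ≤ n i) →
      ∀ (g' : Fin r' → Fin (m' - 1)) (n' : Fin r' → ℕ), (∀ j, j + 1 < m' → ∃ i, (g' i : ℕ) = j ∧ 1 ≤ n' i) →
      ∀ (K K' : ℕ), 1 ≤ K → 1 ≤ K' → ∀ s : Bool,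
      ∀ W W' : List (Bool × ℕ), W = aword m c g n ++ TW s m 0 K → W' = aword m' c' g' n' ++ TW s m' 0 K' →
        (draw (braidClosure m) W).close.IsClosed ∧ (draw (braidClosure m') W').close.IsClosed ∧
        (score s (aword m c g n) + 3 * K * ((m : ℤ)^2 - (m : ℤ) % 2) + 2 * ((m : ℤ) % 2) ≠
          score s (aword m' c' g' n') + 3 * K' * ((m' : ℤ)^2 - (m' : ℤ) % 2) + 2 * ((m' : ℤ) % 2) →
          Separated d (cl m W) (cl m' W'))) ∧
    (3 ≤ m → ∀ (c : ℕ), c < 2 →
      ∀ (g : Fin r → Fin (m - 1)) (n : Fin r → ℕ), (∀ j, j + 1 < m → ∃ i, (g i : ℕ) = j ∧ 1 ≤ n i) →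
      ∀ (K K' : ℕ), 1 ≤ K → 1 ≤ K' → K ≠ K' → ∀ s : Bool,
        Separated d (cl m (aword m c g n ++ TW s m 0 K)) (cl m (aword m c g n ++ TW s m 0 K'))) := by
  have hm0 : 0 < m := by omega
  have hm0' : 0 < m' := by omega
  obtain ⟨d1, hd1⟩ := order_syl_pairs hm0 hm0' r r'
  obtain ⟨d2, hd2⟩ := order_syl_pairs hm0 hm0 r r
  refine ⟨max d1 d2, ?_, ?_, ?_⟩
  · rintro x hx n K hK x' hx' n' K' hK' s L L' rfl rfl W W' rfl rfl
    have hL := Lst_fits x (fun i => (hx i).1) n
    have hL' := Lst_fits x' (fun i => (hx' i).1) n'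
    refine ⟨(full_main hm0 _ hL K hK s).1, (full_main hm0' _ hL' K' hK' s).1, fun h1 h2 h3 => ?_⟩
    exact sep_mono (le_max_left _ _) (hd1 x hx n K s x' hx' n' K' s
      (ne_pair hm0 _ hL K hK s hm0' _ hL' K' hK' h1 h2 h3))
  · rintro hm3 hm3' c c' hc hc' g n hall g' n' hall' K K' hK hK' s W W' rfl rfl
    rw [← aword_twist hc, ← aword_twist hc']
    have hL := Lst_fits (alet m (if s then c else 1 - c) g) (fun i => (alet_ok g i).1) n
    have hL' := Lst_fits (alet m' (if s then c' else 1 - c') g') (fun i => (alet_ok g' i).1) n'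
    obtain ⟨h1, _, _, _, _, _, _, h2⟩ := full_main hm0 _ hL K hK s
    obtain ⟨h1', _, _, _, _, _, _, h2'⟩ := full_main hm0' _ hL' K' hK' s
    obtain ⟨h3, _⟩ := h2 hm3 _ (by split_ifs <;> omega) (alet_alt g n) (alet_full g n hall)
    obtain ⟨h3', _⟩ := h2' hm3' _ (by split_ifs <;> omega) (alet_alt g' n') (alet_full g' n' hall')
    refine ⟨h1, h1', fun h4 => sep_mono (le_max_left _ _) (hd1 _ (alet_ok g) n K s _ (alet_ok g') n' K' s
      (ne_pair hm0 _ hL K hK s hm0' _ hL' K' hK' (by omega) (by omega) (Or.inl ?_)))⟩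
    rw [FE_alet hc, FE_alet hc']
    intro h5
    apply h4
    linarith
  · rintro hm3 c hc g n hall K K' hK hK' hne s
    rw [← aword_twist hc, ← aword_twist hc]
    have hL := Lst_fits (alet m (if s then c else 1 - c) g) (fun i => (alet_ok g i).1) n
    obtain ⟨h1, _, _, _, _, _, _, h2⟩ := full_main hm0 _ hL K hK s
    obtain ⟨h3, _⟩ := h2 hm3 _ (by split_ifs <;> omega) (alet_alt g n) (alet_full g n hall)
    refine sep_mono (le_max_right _ _) (hd2 _ (alet_ok g) n K s _ (alet_ok g) n K' s
      (ne_pair hm0 _ hL K hK s hm0 _ hL K' hK' (by omega) (by omega) (Or.inl ?_)))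
    rw [FE_alet hc, FE_alet hc]
    intro h5
    apply hne
    have h6 : (0 : ℤ) < (m : ℤ)^2 - (m : ℤ) % 2 := by
      have h7 : (3 : ℤ) ≤ m := by exact_mod_cast hm3
      have h8 : (m : ℤ) % 2 < 2 := Int.emod_lt_of_pos _ (by norm_num)
      nlinarith
    have h9 : ((K : ℤ) - K') * ((m : ℤ)^2 - (m : ℤ) % 2) = 0 := by linarith
    rcases mul_eq_zero.1 h9 with h10 | h10
    · omega
    · omega

end Pool.Agent.Results.MP_31fd3b_gt.TwistedExponents
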